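import Pool.Agent.R879.KK

/-!
# The localized clique-counting inequality for uniform hypergraphs

For all `t ≥ q > i ≥ 1` and all `q`-uniform hypergraphs `H` with `m` edges,
`∑_T 1 / binom (x(T) - q) (t - q) ≤ m / C (t, q)`, where `T` runs through the `t`-cliques of `H`.

The proof: a weight of a clique `T` is at most the average over its `i`-subsets `I` of
`1 / binom (x(I) - q) (t - q)`, and by Lovasz's theorem (with real `x`) in the link of `I`, at most
`binom (x(I) - i) (t - i)` cliques contain `I`.

`binom x k = x (x - 1) ⋯ (x - k + 1) / k!` is defined in `Pool.Agent.R879.KK`.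
-/

set_option autoImplicit false
set_option linter.unusedSectionVars false

namespace Pool.Agent.Results.MP_cab928_co.LocalizedInequality

open Finset Pool.Agent.R879

variable {V : Type*} [Fintype V] [DecidableEq V]

/-- The degree `d(I)` of a set `I` of vertices: the number of edges that contain `I`. -/
def deg (H : Finset (Finset V)) (I : Finset V) : ℕ := (H.filter (fun e => I ⊆ e)).card

/-- The `t`-cliques of a `q`-uniform hypergraph: the `t`-sets all of whose `q`-subsets are edges. -/
def cliques (H : Finset (Finset V)) (q t : ℕ) : Finset (Finset V) :=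
  univ.filter (fun T => T.card = t ∧ ∀ e ⊆ T, e.card = q → e ∈ H)

/-- `x(I)`, the largest real solution `y` of `d(I) = binom (y - i) (q - i)`. -/
noncomputable def xSet (H : Finset (Finset V)) (q i : ℕ) (I : Finset V) : ℝ :=
  sSup {y : ℝ | (deg H I : ℝ) = binom (y - i) (q - i)}

/-- `x(T)`, the maximum of `x(I)` over all `i`-subsets `I` of `T`. -/
noncomputable def xClique (H : Finset (Finset V)) (q i : ℕ) (T : Finset V) : ℝ :=
  sSup (xSet H q i '' {I | I ⊆ T ∧ I.card = i})

/-- Existence of a largest solution, which is at least `q - 1`. -/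
theorem exists_greatest (d q i : ℕ) (hiq : i < q) : ∃ y : ℝ, (q : ℝ) - 1 ≤ y ∧
    IsGreatest {y : ℝ | (d : ℝ) = binom (y - i) (q - i)} y := by
  have hk : 1 ≤ q - i := by omega
  have hcast : ((q - i : ℕ) : ℝ) = (q : ℝ) - i := by rw [Nat.cast_sub hiq.le]
  have hle : ((q - i : ℕ) : ℝ) - 1 ≤ ((d + (q - i) : ℕ) : ℝ) := by
    push_cast
    have : (0 : ℝ) ≤ d := Nat.cast_nonneg d
    linarith
  obtain ⟨z, hz, hz2⟩ : ∃ z ∈ Set.Icc (((q - i : ℕ) : ℝ) - 1) ((d + (q - i) : ℕ) : ℝ),
      binom z (q - i) = (d : ℝ) := by
    apply intermediate_value_Icc hle ((continuous_binom (q - i)).continuousOn)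
    constructor
    · have h1 : ((q - i : ℕ) : ℝ) - 1 = ((q - i - 1 : ℕ) : ℝ) := by
        rw [Nat.cast_sub hk, Nat.cast_one]
      rw [h1, binom_nat, Nat.choose_eq_zero_of_lt (by omega)]
      simp
    · rw [binom_nat]
      have h1 : (d + (q - i)).choose (q - i) = (d + (q - i)).choose d := by
        rw [← Nat.choose_symm (show q - i ≤ d + (q - i) by omega)]
        congr 1
        omega
      have h2 : d + 1 ≤ (d + (q - i)).choose d := by
        calc d + 1 = (d + 1).choose d := by rw [Nat.choose_succ_self_right]
          _ ≤ (d + (q - i)).choose d := Nat.choose_le_choose d (by omega)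
      rw [h1]
      exact_mod_cast (Nat.le_succ d).trans h2
  refine ⟨z + i, by have := hz.1; linarith, ?_, ?_⟩
  · rw [Set.mem_ofPred_eq, add_sub_cancel_right, hz2]
  · intro y hy
    rw [Set.mem_ofPred_eq] at hy
    by_contra hlt
    push Not at hlt
    have h1 := binom_strictMono hk hz.1 (show z < y - i by linarith)
    rw [hz2, ← hy] at h1
    exact lt_irrefl _ h1

theorem xSet_greatest (H : Finset (Finset V)) (q i : ℕ) (hiq : i < q) (I : Finset V) :
    IsGreatest {y : ℝ | (deg H I : ℝ) = binom (y - i) (q - i)} (xSet H q i I) := by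
  obtain ⟨y, -, hy⟩ := exists_greatest (deg H I) q i hiq
  have : xSet H q i I = y := hy.csSup_eq
  rw [this]
  exact hy

theorem xClique_greatest (H : Finset (Finset V)) (q i : ℕ) (T : Finset V) (hT : i ≤ T.card) :
    IsGreatest (xSet H q i '' {I | I ⊆ T ∧ I.card = i}) (xClique H q i T) := by
  have hfin : (xSet H q i '' {I | I ⊆ T ∧ I.card = i}).Finite :=
    Set.Finite.image _ (Set.toFinite _)
  obtain ⟨I, hI1, hI2⟩ := exists_subset_card_eq hT
  have hne : (xSet H q i '' {I | I ⊆ T ∧ I.card = i}).Nonempty := ⟨_, I, ⟨hI1, hI2⟩, rfl⟩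
  exact ⟨hne.csSup_mem hfin, fun y hy => le_csSup hfin.bddAbove hy⟩

/-- The link of `I`. -/
def link (H : Finset (Finset V)) (I : Finset V) : Finset (Finset V) :=
  (H.filter (fun e => I ⊆ e)).image (fun e => e \ I)

theorem card_link (H : Finset (Finset V)) (I : Finset V) : (link H I).card = deg H I := by
  apply card_image_of_injOn
  intro a ha b hb hab
  rw [mem_coe, mem_filter] at ha hb
  have h : a \ I ∪ I = b \ I ∪ I := by
    simp only at hab
    rw [hab]
  rwa [sdiff_union_of_subset ha.2, sdiff_union_of_subset hb.2] at h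

/-- The cliques that contain `I` inject into the complete sets of the link. -/
theorem card_cliques_le {H : Finset (Finset V)} {q i t : ℕ} (hiq : i < q)
    (I : Finset V) (hI : I.card = i) :
    ((cliques H q t).filter (fun T => I ⊆ T)).card ≤ (cl (link H I) (q - i) (t - i)).card := by
  apply card_le_card_of_injOn (fun T => T \ I)
  · intro T hT
    rw [mem_coe, mem_filter, cliques, mem_filter] at hT
    obtain ⟨⟨-, hTc, hT1⟩, hIT⟩ := hT
    rw [mem_coe, mem_cl]
    refine ⟨by rw [card_sdiff_of_subset hIT, hTc, hI], fun e he hec => ?_⟩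
    have hdis : Disjoint e I := by
      rw [disjoint_left]
      intro a ha haI
      exact (mem_sdiff.1 (he ha)).2 haI
    rw [link, mem_image]
    refine ⟨e ∪ I, ?_, ?_⟩
    · rw [mem_filter]
      refine ⟨hT1 _ (union_subset (he.trans sdiff_subset) hIT) ?_, subset_union_right⟩
      rw [card_union_of_disjoint hdis, hec, hI]
      omega
    · rw [union_sdiff_right, Finset.sdiff_eq_self_iff_disjoint]
      exact hdis
  · intro a ha b hb hab
    rw [mem_coe, mem_filter] at ha hb
    have h : a \ I ∪ I = b \ I ∪ I := by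
      simp only at hab
      rw [hab]
    rwa [sdiff_union_of_subset ha.2, sdiff_union_of_subset hb.2] at h

/-- If some clique contains `I`, then `x(I) ≥ t`. -/
theorem t_le_xSet {H : Finset (Finset V)} {q i t : ℕ} (hiq : i < q) (hqt : q ≤ t)
    {I T : Finset V} (hI : I.card = i) (hT : T ∈ cliques H q t) (hIT : I ⊆ T) :
    (t : ℝ) ≤ xSet H q i I := by
  rw [cliques, mem_filter] at hT
  obtain ⟨-, hTc, hT1⟩ := hT
  have hk : 1 ≤ q - i := by omega
  -- the degree is at least `C (t - i, q - i)`
  have h1 : (t - i).choose (q - i) ≤ deg H I := by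
    have h2 : ((T \ I).powersetCard (q - i)).card = (t - i).choose (q - i) := by
      rw [card_powersetCard, card_sdiff_of_subset hIT, hTc, hI]
    rw [← h2]
    apply card_le_card_of_injOn (fun e => e ∪ I)
    · intro e he
      rw [mem_coe, mem_powersetCard] at he
      have hdis : Disjoint e I := by
        rw [disjoint_left]
        intro a ha haI
        exact (mem_sdiff.1 (he.1 ha)).2 haI
      rw [mem_coe, mem_filter]
      refine ⟨hT1 _ (union_subset (he.1.trans sdiff_subset) hIT) ?_, subset_union_right⟩
      rw [card_union_of_disjoint hdis, he.2, hI]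
      omega
    · intro a ha b hb hab
      rw [mem_coe, mem_powersetCard] at ha hb
      have hda : Disjoint a I := by
        rw [disjoint_left]
        intro x hx hxI
        exact (mem_sdiff.1 (ha.1 hx)).2 hxI
      have hdb : Disjoint b I := by
        rw [disjoint_left]
        intro x hx hxI
        exact (mem_sdiff.1 (hb.1 hx)).2 hxI
      have h : (a ∪ I) \ I = (b ∪ I) \ I := by
        simp only at hab
        rw [hab]
      rwa [union_sdiff_right, union_sdiff_right, Finset.sdiff_eq_self_iff_disjoint.2 hda,
        Finset.sdiff_eq_self_iff_disjoint.2 hdb] at h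
  have hx := xSet_greatest H q i hiq I
  obtain ⟨y, hy1, hy2⟩ := exists_greatest (deg H I) q i hiq
  have hxy : xSet H q i I = y := hx.unique hy2
  rw [hxy]
  by_contra hlt
  push Not at hlt
  have h3 := binom_strictMono hk (show ((q - i : ℕ) : ℝ) - 1 ≤ y - i by
    rw [Nat.cast_sub hiq.le]; linarith) (show y - i < (t : ℝ) - i by linarith)
  have h4 : (t : ℝ) - i = ((t - i : ℕ) : ℝ) := by rw [Nat.cast_sub (by omega)]
  rw [h4, binom_nat] at h3
  have h5 : (deg H I : ℝ) = binom (y - i) (q - i) := hy2.1
  rw [← h5] at h3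
  have h6 : deg H I < (t - i).choose (q - i) := by exact_mod_cast h3
  omega

/-- The contribution of one set `I`. -/
theorem local_bound {H : Finset (Finset V)} {q i t : ℕ} (hiq : i < q) (hqt : q ≤ t)
    (hH : ∀ e ∈ H, e.card = q) (I : Finset V) (hI : I.card = i) :
    ∑ _T ∈ (cliques H q t).filter (fun T => I ⊆ T), (1 / binom (xSet H q i I - q) (t - q))
      ≤ (deg H I : ℝ) / ((t - i).choose (q - i) : ℝ) := by
  have hch : (0 : ℝ) < ((t - i).choose (q - i) : ℝ) := by
    exact_mod_cast Nat.choose_pos (by omega)
  rcases ((cliques H q t).filter (fun T => I ⊆ T)).eq_empty_or_nonempty with h0 | ⟨T, hT⟩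
  · rw [h0, sum_empty]
    positivity
  · rw [mem_filter] at hT
    have hxt := t_le_xSet hiq hqt hI hT.1 hT.2
    have hx := (xSet_greatest H q i hiq I).1
    rw [Set.mem_ofPred_eq] at hx
    obtain ⟨r, hr⟩ : ∃ r, q - i = r + 1 := ⟨q - i - 1, by omega⟩
    have hsized : ∀ e ∈ link H I, e.card = r + 1 := by
      intro e he
      rw [link, mem_image] at he
      obtain ⟨f, hf, rfl⟩ := he
      rw [mem_filter] at hf
      rw [card_sdiff_of_subset hf.2, hH f hf.1, hI, hr]
    have h1 := kk r (link H I) (xSet H q i I - i) hsized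
      (by rw [card_link, ← hr, ← hx]) (t - q) (by
        have : ((r + 1 + (t - q) : ℕ) : ℝ) = (t : ℝ) - i := by
          rw [← hr]
          rw [← Nat.cast_sub (show i ≤ t by omega)]
          congr 1
          omega
        rw [this]
        linarith)
    have h2 := card_cliques_le (H := H) (t := t) hiq I hI
    rw [show r + 1 + (t - q) = t - i by omega, ← hr] at h1
    have h3 : (((cliques H q t).filter (fun T => I ⊆ T)).card : ℝ) ≤
        binom (xSet H q i I - i) (t - i) := le_trans (by exact_mod_cast h2) h1
    have h4 : 0 < binom (xSet H q i I - q) (t - q) := by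
      apply binom_pos
      rw [Nat.cast_sub hqt]
      linarith
    have h5 := binom_mul (xSet H q i I - i) (q - i) (t - q)
    rw [show q - i + (t - q) = t - i by omega, ← hx] at h5
    have h6 : xSet H q i I - i - ((q - i : ℕ) : ℝ) = xSet H q i I - q := by
      rw [Nat.cast_sub hiq.le]
      ring
    rw [h6] at h5
    rw [sum_const, nsmul_eq_mul, mul_one_div, div_le_div_iff₀ h4 hch]
    calc (((cliques H q t).filter (fun T => I ⊆ T)).card : ℝ) * ((t - i).choose (q - i) : ℝ)
        ≤ binom (xSet H q i I - i) (t - i) * ((t - i).choose (q - i) : ℝ) :=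
          mul_le_mul_of_nonneg_right h3 hch.le
      _ = (deg H I : ℝ) * binom (xSet H q i I - q) (t - q) := h5

/-- **The localized clique-counting inequality.** Let `t ≥ q > i` and let `H` be a `q`-uniform
hypergraph with `m` edges. The numbers `x(I)` and `x(T)` are well defined (the first two parts), and
the sum of `1 / binom (x(T) - q) (t - q)` over all `t`-cliques `T` is at most `m / C (t, q)`. -/
theorem result {V : Type*} [Fintype V] [DecidableEq V] (H : Finset (Finset V)) (q i t : ℕ)
    (hiq : i < q) (hqt : q ≤ t) (hH : ∀ e ∈ H, e.card = q) :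
    (∀ I : Finset V, I.card = i →
      IsGreatest {y : ℝ | (deg H I : ℝ) = binom (y - i) (q - i)} (xSet H q i I)) ∧
    (∀ T ∈ cliques H q t,
      IsGreatest (xSet H q i '' {I | I ⊆ T ∧ I.card = i}) (xClique H q i T)) ∧
    ∑ T ∈ cliques H q t, 1 / binom (xClique H q i T - q) (t - q)
      ≤ (H.card : ℝ) / (t.choose q : ℝ) := by
  have hg : ∀ T ∈ cliques H q t,
      IsGreatest (xSet H q i '' {I | I ⊆ T ∧ I.card = i}) (xClique H q i T) := by
    intro T hT
    rw [cliques, mem_filter] at hT
    exact xClique_greatest H q i T (by omega)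
  refine ⟨fun I _ => xSet_greatest H q i hiq I, hg, ?_⟩
  have hti : (0 : ℝ) < (t.choose i : ℝ) := by exact_mod_cast Nat.choose_pos (by omega)
  have htq : (0 : ℝ) < (t.choose q : ℝ) := by exact_mod_cast Nat.choose_pos (by omega)
  have htqi : (0 : ℝ) < ((t - i).choose (q - i) : ℝ) := by
    exact_mod_cast Nat.choose_pos (by omega)
  -- averaging over the `i`-subsets of a clique
  have h1 : ∀ T ∈ cliques H q t, (t.choose i : ℝ) * (1 / binom (xClique H q i T - q) (t - q)) ≤
      ∑ I ∈ univ.powersetCard i, if I ⊆ T then 1 / binom (xSet H q i I - q) (t - q) else 0 := by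
    intro T hT
    have hTc : T.card = t := by
      rw [cliques, mem_filter] at hT
      exact hT.2.1
    rw [← sum_filter]
    have h2 : (univ.powersetCard i).filter (fun I => I ⊆ T) = T.powersetCard i := by
      ext I
      simp only [mem_filter, mem_powersetCard, subset_univ, true_and]
      exact and_comm
    rw [h2]
    have h3 : (t.choose i : ℝ) * (1 / binom (xClique H q i T - q) (t - q)) =
        ∑ I ∈ T.powersetCard i, 1 / binom (xClique H q i T - q) (t - q) := by
      rw [sum_const, card_powersetCard, hTc, nsmul_eq_mul]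
    rw [h3]
    apply sum_le_sum
    intro I hI
    rw [mem_powersetCard] at hI
    have h4 := t_le_xSet hiq hqt hI.2 hT hI.1
    have h5 : xSet H q i I ≤ xClique H q i T := (hg T hT).2 ⟨I, hI, rfl⟩
    apply one_div_le_one_div_of_le
    · apply binom_pos
      rw [Nat.cast_sub hqt]
      linarith
    · apply binom_mono
      · rw [Nat.cast_sub hqt]
        linarith
      · linarith
  have h2 := sum_le_sum h1
  rw [← mul_sum, sum_comm] at h2
  have h3 : ∀ I ∈ (univ : Finset V).powersetCard i,
      (∑ T ∈ cliques H q t, if I ⊆ T then 1 / binom (xSet H q i I - q) (t - q) else 0) ≤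
      (deg H I : ℝ) / ((t - i).choose (q - i) : ℝ) := by
    intro I hI
    rw [mem_powersetCard] at hI
    rw [← sum_filter]
    exact local_bound hiq hqt hH I hI.2
  have h4 := h2.trans (sum_le_sum h3)
  have h5 : ∑ I ∈ (univ : Finset V).powersetCard i, (deg H I : ℝ) = H.card * (q.choose i : ℝ) := by
    have h6 : ∑ I ∈ (univ : Finset V).powersetCard i, deg H I = ∑ e ∈ H, q.choose i := by
      simp_rw [deg, card_filter]
      rw [sum_comm]
      refine sum_congr rfl (fun e he => ?_)
      rw [← card_filter]
      have h7 : (univ.powersetCard i).filter (fun I => I ⊆ e) = e.powersetCard i := by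
        ext I
        simp only [mem_filter, mem_powersetCard, subset_univ, true_and]
        exact and_comm
      rw [h7, card_powersetCard, hH e he]
    rw [← Nat.cast_sum, h6, sum_const, smul_eq_mul]
    push_cast
    ring
  rw [← sum_div, h5] at h4
  have h6 : (t.choose q : ℝ) * (q.choose i : ℝ) = (t.choose i : ℝ) * ((t - i).choose (q - i) : ℝ) := by
    exact_mod_cast Nat.choose_mul (n := t) (k := q) (s := i) hiq.le
  rw [le_div_iff₀ htqi] at h4
  rw [le_div_iff₀ htq]
  have hqi : (0 : ℝ) < (q.choose i : ℝ) := by exact_mod_cast Nat.choose_pos hiq.le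
  have h7 : (∑ T ∈ cliques H q t, 1 / binom (xClique H q i T - q) (t - q)) * (t.choose q : ℝ) *
      (q.choose i : ℝ) ≤ (H.card : ℝ) * (q.choose i : ℝ) := by
    calc (∑ T ∈ cliques H q t, 1 / binom (xClique H q i T - q) (t - q)) * (t.choose q : ℝ) *
        (q.choose i : ℝ)
        = (t.choose i : ℝ) * (∑ T ∈ cliques H q t, 1 / binom (xClique H q i T - q) (t - q)) *
          ((t - i).choose (q - i) : ℝ) := by
          rw [mul_assoc, h6]
          ring
      _ ≤ (H.card : ℝ) * (q.choose i : ℝ) := h4
  exact le_of_mul_le_mul_right h7 hqi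

end Pool.Agent.Results.MP_cab928_co.LocalizedInequality
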